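import Pool.Agent.H17.UM.FKC

/-!
# FK: the kernel computation
-/

namespace Pool.Agent.H17.FK

theorem all_eq : all = true := by decide +kernel

end Pool.Agent.H17.FK
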