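import Pool.Agent.H17.UM.FKD
import Pool.Agent.H17.UM.FKK

/-!
# FK: `n ≤ 62`
-/

set_option autoImplicit false
set_option linter.unusedSectionVars false
set_option exponentiation.threshold 1000

namespace Pool.Agent.H17.FK

open Pool.Agent.H37.UM PowerSeries Finset

theorem mod_div_mod (v a b c : ℕ) (h : b + c ≤ a) :
    v % 2 ^ a / 2 ^ b % 2 ^ c = v / 2 ^ b % 2 ^ c := by
  refine Nat.eq_of_testBit_eq (fun i => ?_)
  simp only [Nat.testBit_mod_two_pow, Nat.testBit_div_two_pow]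
  by_cases h1 : i < c
  · have h2 : i + b < a := by omega
    simp [h1, h2]
  · simp [h1]

theorem dc_spec (D e : ℕ) : ∀ (d k v : ℕ), v < 2 ^ (560 * 2 ^ d) → dc D e d k v = true →
    ∀ i, i < 2 ^ d → 2 ≤ k + i → (e = 0 ∨ (k + i) % 2 = 0) → 2 * (k + i - e) ≤ D →
      2 ^ 559 ≤ v / 2 ^ (560 * i) % 2 ^ 560
  | 0, k, v, hv, h, i, hi, h1, h2, h3 => by
    rw [pow_zero] at hi hv
    have hi0 : i = 0 := by omega
    subst hi0
    rw [Nat.add_zero] at h1 h2 h3
    rw [mul_zero, pow_zero, Nat.div_one, Nat.mod_eq_of_lt (by rw [mul_one] at hv; exact hv)]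
    unfold dc at h
    have h4 : (Nat.ble 2 k && (Nat.beq e 0 || Nat.beq (Nat.mod k 2) 0) &&
      Nat.ble (Nat.mul 2 (Nat.sub k e)) D) = true := by
      rw [Bool.and_eq_true, Bool.and_eq_true, Bool.or_eq_true]
      exact ⟨⟨Nat.ble_eq_true_of_le h1, h2.imp (fun h => by rw [Nat.beq_eq]; exact h)
        (fun h => by rw [Nat.beq_eq]; exact h)⟩, Nat.ble_eq_true_of_le h3⟩
    rw [h4] at h
    exact Nat.le_of_ble_eq_true h
  | d + 1, k, v, hv, h, i, hi, h1, h2, h3 => by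
    unfold dc at h
    have h4 : Nat.ble (Nat.mul 2 (Nat.sub k e)) D = true := by
      rw [Nat.ble_eq]
      change 2 * (k - e) ≤ D
      omega
    rw [h4] at h
    change (dc D e d k (Nat.land v (2 ^ (560 * 2 ^ d) - 1)) &&
      dc D e d (k + 2 ^ d) (v >>> (560 * 2 ^ d))) = true at h
    rw [Bool.and_eq_true] at h
    rcases Nat.lt_or_ge i (2 ^ d) with h5 | h5
    · have h6 : Nat.land v (2 ^ (560 * 2 ^ d) - 1) = v % 2 ^ (560 * 2 ^ d) :=
        Nat.and_two_pow_sub_one_eq_mod v _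
      rw [h6] at h
      have h7 := dc_spec D e d k _ (Nat.mod_lt _ (Nat.pow_pos (by norm_num))) h.1 i h5 h1 h2 h3
      rw [mod_div_mod _ _ _ _ (by nlinarith)] at h7
      exact h7
    · have h6 : v >>> (560 * 2 ^ d) = v / 2 ^ (560 * 2 ^ d) := Nat.shiftRight_eq_div_pow _ _
      rw [h6] at h
      have h8 : v / 2 ^ (560 * 2 ^ d) < 2 ^ (560 * 2 ^ d) := by
        rw [Nat.div_lt_iff_lt_mul (Nat.pow_pos (by norm_num)), ← pow_add]
        rw [pow_succ] at hv
        rw [show 560 * 2 ^ d + 560 * 2 ^ d = 560 * (2 ^ d * 2) by ring]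
        exact hv
      have h7 := dc_spec D e d (k + 2 ^ d) _ h8 h.2 (i - 2 ^ d) (by rw [pow_succ] at hi; omega)
        (by omega) (by rw [show k + 2 ^ d + (i - 2 ^ d) = k + i by omega]; exact h2)
        (by rw [show k + 2 ^ d + (i - 2 ^ d) = k + i by omega]; exact h3)
      rw [Nat.div_div_eq_div_mul, ← pow_add,
        show 560 * 2 ^ d + 560 * (i - 2 ^ d) = 560 * i by rw [← mul_add]; congr 1; omega] at h7
      exact h7

theorem geo_eq (a t : ℕ) : geo a t = (2 ^ (a * t) - 1) / (2 ^ a - 1) := rfl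

theorem offsE_eq (a t : ℕ) : offsE a t = 2 ^ 559 * geo a t := rfl

variable {B K : ℕ} (hB : B = 560) (hK : K = 1275) (hP : PACKStmt)

include hB hK hP

theorem offs_eq : ((offs : ℕ) : ZMod (2 ^ (B * K))) =
    pk B K (PowerSeries.mk (fun _ => (2 ^ 559 : ℤ))) := by
  have h1 : offs = 2 ^ 559 * ∑ k ∈ range K, (2 ^ B) ^ k := by
    rw [Nat.geomSum_eq (Nat.le_self_pow (by omega) 2), ← pow_mul, ← geo_eq, ← offsE_eq]
    unfold offs
    rw [hB, hK]
  rw [h1]
  unfold pk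
  push_cast
  rw [Finset.mul_sum]
  refine Finset.sum_congr rfl (fun k _ => ?_)
  rw [coeff_mk]
  push_cast
  rfl

/-- reading the digits -/
theorem read (D e : ℕ) {x : ℕ} {f : ℤ⟦X⟧} (hx : (x : ZMod (2 ^ (B * K))) = pk B K f)
    (hf : ∀ k, k < K → |coeff k f| < 2 ^ 559)
    (h : dc D e 11 0 (red (Nat.add x offs)) = true) :
    ∀ k, k < K → 2 ≤ k → (e = 0 ∨ k % 2 = 0) → 2 * (k - e) ≤ D → 0 ≤ coeff k f := by
  intro k hk h2 h3 h4
  have hr := rep_add' hB hK hP hx (offs_eq hB hK hP)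
  obtain ⟨v, hv⟩ : ∃ v, v = red (Nat.add x offs) := ⟨_, rfl⟩
  rw [← hv] at h hr
  have hlt : v < 2 ^ (560 * 2 ^ 11) := by
    refine hr.1.trans_le (Nat.pow_le_pow_right (by norm_num) ?_)
    rw [hB, hK]
    norm_num
  have h5 := dc_spec D e 11 0 v hlt h k (by rw [hK] at hk; norm_num; omega) (by omega)
    (by rw [Nat.zero_add]; exact h3) (by rw [Nat.zero_add]; exact h4)
  have hval : (pk B K (f + PowerSeries.mk (fun _ => (2 ^ 559 : ℤ)))).val = v := by
    rw [← hr.2]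
    exact ZMod.val_natCast_of_lt hr.1
  have hc : ∀ j, coeff j (f + PowerSeries.mk (fun _ => (2 ^ 559 : ℤ))) = coeff j f + 2 ^ 559 := by
    intro j
    rw [map_add, coeff_mk]
  have h6 := hP.2.2.2.2.2 B K (f + PowerSeries.mk (fun _ => (2 ^ 559 : ℤ))) k
    (fun j hj => by
      have h7 := abs_lt.1 (hf j hj)
      rw [hc, hB]
      have h8 : (2 : ℤ) ^ 560 = 2 ^ 559 + 2 ^ 559 := by norm_num
      rw [h8]
      constructor <;> linarith [h7.1, h7.2]) hk
  rw [hval, hc, hB] at h6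
  have h9 : ((2 ^ 559 : ℕ) : ℤ) ≤ ((v / 2 ^ (560 * k) % 2 ^ 560 : ℕ) : ℤ) := by exact_mod_cast h5
  rw [← h6] at h9
  push_cast at h9
  linarith

/-- the conclusion for `n` -/
def Cn (n : ℕ) : Prop := EU n ∧ (60 ≤ n → ∀ k, 2 ≤ k → 2 * k ≤ dg n → 0 ≤ df (XX n) k)

theorem chk_spec (hA : APBStmt) (hF : FFStmt) (hU : UUStmt) {n D d hh t : ℕ} (h1 : 1 ≤ n)
    (hn : n ≤ 62) (hD : D = dg n) (hd : Rep B K d (den n)) (hhh : Rep B K hh (h n))
    (ht : Rep B K t (T n)) (hc : chk n D d hh t = true) : Cn n := by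
  unfold chk at hc
  rw [force_eq, Bool.and_eq_true, Bool.and_eq_true] at hc
  obtain ⟨hc0, hc1, hc2⟩ := hc
  have hD2 : dg n ≤ 2546 := by rw [← hD]; exact Nat.le_of_ble_eq_true hc0
  obtain ⟨p, hp⟩ : ∃ p, p = red (Nat.mul d hh) := ⟨_, rfl⟩
  rw [← hp] at hc1 hc2
  have hpr : Rep B K p (P n) := by
    rw [hp]
    exact rep_mul hB hK hP hd hhh
  constructor
  · intro j hj
    have h2 : ((subs p 1120 : ℕ) : ZMod (2 ^ (B * K))) = pk B K ((1 - X ^ 2) * P n) := by
      have h3 := rep_subs hB hK hP 2 hpr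
      exact h3.2
    have h3 := read hB hK hP D 1 h2 (fun k hk => f1_bd hA h1 hn (by omega)) hc1 (2 * j + 2)
      (by omega) (by omega) (Or.inr (by omega)) (by omega)
    rw [coeff_one_sub, if_pos (by omega), show 2 * j + 2 - 2 = 2 * j by omega] at h3
    linarith
  · intro h60 k hk2 hk
    have h4 : Nat.ble 60 n = true := Nat.ble_eq_true_of_le h60
    rw [h4] at hc2
    obtain ⟨z, hz⟩ : ∃ z, z = red (Nat.add (Nat.mul (Nat.mul 2 n) p)
        (Nat.sub (Nat.mul (Nat.add n 2) Mo) (Nat.mul (Nat.add n 2) t))) := ⟨_, rfl⟩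
    rw [← hz] at hc2
    have hzr : Rep B K z (XX n) := by
      rw [hz]
      refine rep_red hB hK ?_
      change (((2 * n * p + ((n + 2) * Mo - (n + 2) * t) : ℕ)) : ZMod (2 ^ (B * K))) = _
      have h5 : (n + 2) * t ≤ (n + 2) * Mo := by
        rw [Mo_eq hB hK]
        exact Nat.mul_le_mul_left _ ht.1.le
      rw [Nat.cast_add, Nat.cast_sub h5, Mo_eq hB hK]
      have h6 : (((2 ^ (B * K) : ℕ)) : ZMod (2 ^ (B * K))) = 0 := ZMod.natCast_self _
      rw [Nat.cast_mul (n + 2) (2 ^ (B * K)), h6]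
      unfold XX
      have h7 : (2 * n : ℤ⟦X⟧) = ((2 * n : ℕ) : ℤ⟦X⟧) := by push_cast; rfl
      have h8 : (n + 2 : ℤ⟦X⟧) = ((n + 2 : ℕ) : ℤ⟦X⟧) := by push_cast; rfl
      rw [h7, h8, pk_sub hB hK hP, pk_mul hB hK hP ((2 * n : ℕ) : ℤ⟦X⟧),
        pk_mul hB hK hP ((n + 2 : ℕ) : ℤ⟦X⟧), ← hpr.2, ← ht.2, pk_nat hB hK hP, pk_nat hB hK hP]
      push_cast
      ring
    have h2 : ((subs z 560 : ℕ) : ZMod (2 ^ (B * K))) = pk B K ((1 - X ^ 1) * XX n) := by
      have h3 := rep_subs hB hK hP 1 hzr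
      exact h3.2
    have h3 := read hB hK hP D 0 h2 (fun k hk => f2_bd hA hF hU h1 hn (by omega)) hc2 k
      (by omega) (by omega) (Or.inl rfl) (by omega)
    unfold df
    rw [pow_one] at h3
    exact h3

theorem loop_spec (hA : APBStmt) (hF : FFStmt) (hU : UUStmt) (hO : OPStmt) (hR : RECStmt)
    (hg : Rep B K (gi 1) (g 1)) :
    ∀ (f n d : ℕ) (hs : List ℕ) (t D : ℕ), 1 ≤ n → n + f = 63 → hs.length = f →
      Rep B K d (den (n - 1)) → Rep B K t (T (n - 1)) → D = dg (n - 1) →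
      (∀ j, j < f → Rep B K (nth hs j) (h (n + j))) → loop f n d hs t D = true →
      ∀ m, n ≤ m → m ≤ 62 → Cn m
  | 0, n, d, hs, t, D, h1, h2, _, _, _, _, _, _, m, hm1, hm2 => by omega
  | f + 1, n, d, [], t, D, h1, h2, h3, _, _, _, _, _, m, hm1, hm2 => by simp at h3
  | f + 1, n, d, x :: hs, t, D, h1, h2, h3, hd, ht, hD, hh, hl, m, hm1, hm2 => by
    unfold loop at hl
    rw [force_eq, force_eq, force_eq, Bool.and_eq_true] at hl
    have hn : n < 2 ^ 7 := by norm_num; omega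
    have hd' : Rep B K (dstep 7 n d) (den n) := by
      rw [den_rec hR h1]
      exact dstep_spec hB hK hP hO 7 n d _ h1 hn hd
    have ht' : Rep B K (red (Nat.mul (gi 1) (dstep 7 n t))) (T n) := by
      have h4 := rep_mul hB hK hP hg (dstep_spec hB hK hP hO 7 n t _ h1 hn ht)
      have h5 : g 1 * (F n * w 1 * T (n - 1)) = T n := by
        rw [T_rec hU h1]
        calc g 1 * (F n * w 1 * T (n - 1)) = (w 1 * g 1) * (F n * T (n - 1)) := by ring
          _ = F n * T (n - 1) := by rw [w_mul_g hB hK hP le_rfl, one_mul]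
      rw [h5] at h4
      exact h4
    have hD' : Nat.add D (Nat.sub (Nat.sub (Nat.mul 2 n) (opn 7 n)) 1) = dg n := by
      rw [dg_rec hU h1, opn_spec hO 7 n h1 hn, hD]
      rfl
    rcases Nat.eq_or_lt_of_le hm1 with h4 | h4
    · rw [← h4]
      exact chk_spec hB hK hP hA hF hU h1 (by omega) hD' hd' (hh 0 (by omega)) ht' hl.1
    · refine loop_spec hA hF hU hO hR hg f (n + 1) (dstep 7 n d) hs
        (red (Nat.mul (gi 1) (dstep 7 n t))) _ (by omega) (by omega)
        (by simpa using h3) (by rw [Nat.add_sub_cancel]; exact hd')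
        (by rw [Nat.add_sub_cancel]; exact ht')
        (by rw [Nat.add_sub_cancel]; exact hD') (fun j hj => ?_) hl.2 m h4 hm2
      have h5 := hh (j + 1) (by omega)
      rw [show n + (j + 1) = n + 1 + j by omega] at h5
      exact h5

end Pool.Agent.H17.FK

namespace Pool.Agent.H37.UM

open Pool.Agent.H17.FK

theorem FK_thm (hP : PACKStmt) (hA : APBStmt) (hG : GENStmt) (hR : RECStmt) (hU : UUStmt)
    (hO : OPStmt) (hF : FFStmt) : FKStmt := by
  obtain ⟨B, hB⟩ : ∃ B : ℕ, B = 560 := ⟨_, rfl⟩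
  obtain ⟨K, hK⟩ : ∃ K : ℕ, K = 1275 := ⟨_, rfl⟩
  have hall := all_eq
  unfold all at hall
  rw [Bool.and_eq_true] at hall
  have hg := chkG_spec hB hK hP 62 hall.1
  have hs := start_spec hB hK hP hG
  have hr := rows_spec hB hK hP hG hg 62 1 (start 62) le_rfl le_rfl hs.1 hs.2
  have key := loop_spec hB hK hP hA hF hU hO hR (hg 1 le_rfl (by norm_num)) 62 1 1
    (List.tail (rows 62 1 (start 62))) 1 0 le_rfl rfl
    (by rw [List.length_tail, hr.1])
    (by
      have h1 : den (1 - 1) = 1 := by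
        unfold den
        rfl
      rw [h1]
      exact rep_one hB hK hP)
    (by
      have h1 : T (1 - 1) = 1 := by
        unfold T U
        rfl
      rw [h1]
      exact rep_one hB hK hP)
    (by
      unfold dg dU
      rfl)
    (fun j hj => by
      rw [nth_tail]
      have h1 := hr.2 (j + 1) (by omega)
      rw [show 1 - 1 + 62 = 62 from rfl, hG.2.2.2.2.1 (j + 1) 62 (by omega)] at h1
      rw [Nat.add_comm 1 j]
      exact h1)
    hall.2
  exact ⟨fun n h1 h2 => (key n h1 h2).1, fun n k h1 h2 h3 h4 =>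
    (key n (by omega) h2).2 h1 k h3 h4⟩

end Pool.Agent.H37.UM
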