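/-!
# FK: kernel computation (functions)

Packed power series: `560` bits for each coefficient, `1275` coefficients.
-/

set_option autoImplicit false

namespace Pool.Agent.H17.FK

/-- `2 ^ e` -/
def MoE (e : Nat) : Nat := Nat.pow 2 e
/-- modulus `2 ^ (560 * 1275)` -/
def Mo : Nat := MoE 714000
/-- mask -/
def maskE (e : Nat) : Nat := Nat.sub (Nat.pow 2 e) 1
/-- reduction -/
def redE (e x : Nat) : Nat := Nat.land x (maskE e)
/-- reduction -/
def red (x : Nat) : Nat := redE 714000 x
/-- `(1 - 2 ^ s) x` -/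
def subs (x s : Nat) : Nat := red (Nat.add x (Nat.sub Mo (red (Nat.shiftLeft x s))))
/-- `(1 + 2 ^ s) x` -/
def adds (x s : Nat) : Nat := red (Nat.add x (Nat.shiftLeft x s))
/-- multiplication by `w i` -/
def wm (i x : Nat) : Nat :=
  bif Nat.beq (Nat.mod i 2) 0 then adds x (Nat.mul 560 i) else subs x (Nat.mul 560 i)
/-- quotient of `2 ^ (a t) - 1` by `2 ^ a - 1` -/
def geo (a t : Nat) : Nat :=
  Nat.div (Nat.sub (Nat.pow 2 (Nat.mul a t)) 1) (Nat.sub (Nat.pow 2 a) 1)
/-- inverse of `w i` -/
def gi (i : Nat) : Nat :=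
  bif Nat.beq (Nat.mod i 2) 0 then
    subs (red (geo (Nat.mul 1120 i) (Nat.add (Nat.div 1275 (Nat.mul 2 i)) 1))) (Nat.mul 560 i)
  else red (geo (Nat.mul 560 i) (Nat.add (Nat.div 1275 i) 1))

/-- force evaluation -/
def force {α : Type} (n : Nat) (k : Nat → α) : α := Nat.rec (k 0) (fun m _ => k (Nat.succ m)) n

/-- element of a list -/
def nth : List Nat → Nat → Nat
  | [], _ => 0
  | x :: _, 0 => x
  | _ :: l, n + 1 => nth l n

/-- one row: `old` = values for `b`, result = values for `b + 1 = i`, `acc` = the reversed prefix -/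
def row (i G : Nat) : List Nat → List Nat → List Nat
  | [], _ => []
  | o :: os, acc => force (red (Nat.add o (Nat.mul G (nth acc (Nat.pred i)))))
      (fun v => v :: row i G os (v :: acc))

/-- all rows -/
def rows : Nat → Nat → List Nat → List Nat
  | 0, _, l => l
  | f + 1, i, l => rows f (Nat.succ i) (row i (gi i) l [])

/-- start: `hr 1 0 j` for `j ≤ n` -/
def start (n : Nat) : List Nat := 1 :: List.replicate n 0

/-- the inverses are correct -/
def chkG : Nat → Bool
  | 0 => true
  | n + 1 => Nat.beq (wm (Nat.succ n) (gi (Nat.succ n))) 1 && chkG n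

/-- multiplication by the product of `w j`, `j = m, m / 2, ...` down to the odd part -/
def dstep : Nat → Nat → Nat → Nat
  | 0, _, x => x
  | f + 1, m, x => bif Nat.beq (Nat.mod m 2) 0 then dstep f (Nat.div m 2) (adds x (Nat.mul 560 m))
      else subs x (Nat.mul 560 m)

/-- odd part -/
def opn : Nat → Nat → Nat
  | 0, m => m
  | f + 1, m => bif Nat.beq (Nat.mod m 2) 0 then opn f (Nat.div m 2) else m

/-- the offset -/
def offsE (a t : Nat) : Nat := Nat.mul (Nat.pow 2 559) (geo a t)
/-- the offset -/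
def offs : Nat := offsE 560 1275

/-- check of all digits `k, ..., k + 2 ^ d - 1` of `v`; `e = 1`: only even digits -/
def dc (D e : Nat) : Nat → Nat → Nat → Bool
  | 0, k, v => bif Nat.ble 2 k && (Nat.beq e 0 || Nat.beq (Nat.mod k 2) 0) &&
      Nat.ble (Nat.mul 2 (Nat.sub k e)) D then Nat.ble (Nat.pow 2 559) v else true
  | d + 1, k, v => bif Nat.ble (Nat.mul 2 (Nat.sub k e)) D then
      dc D e d k (Nat.land v (Nat.sub (Nat.pow 2 (Nat.mul 560 (Nat.pow 2 d))) 1)) &&
        dc D e d (Nat.add k (Nat.pow 2 d)) (Nat.shiftRight v (Nat.mul 560 (Nat.pow 2 d)))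
      else true

/-- the check for `n`: `d = den n`, `h = h n`, `t = T n`, `D = dg n` -/
def chk (n D d h t : Nat) : Bool :=
  Nat.ble D 2546 && force (red (Nat.mul d h)) (fun p =>
    dc D 1 11 0 (red (Nat.add (subs p 1120) offs)) &&
    (bif Nat.ble 60 n then
      dc D 0 11 0 (red (Nat.add (subs (red (Nat.add (Nat.mul (Nat.mul 2 n) p)
        (Nat.sub (Nat.mul (Nat.add n 2) Mo) (Nat.mul (Nat.add n 2) t)))) 560) offs))
      else true))

/-- the loop over `n` -/
def loop : Nat → Nat → Nat → List Nat → Nat → Nat → Bool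
  | 0, _, _, _, _, _ => true
  | _ + 1, _, _, [], _, _ => true
  | f + 1, n, d, h :: hs, t, D =>
      force (dstep 7 n d) (fun d' => force (red (Nat.mul (gi 1) (dstep 7 n t))) (fun t' =>
        force (Nat.add D (Nat.sub (Nat.sub (Nat.mul 2 n) (opn 7 n)) 1)) (fun D' =>
          chk n D' d' h t' && loop f (Nat.succ n) d' hs t' D')))

/-- the whole check -/
def all : Bool := chkG 62 && loop 62 1 1 (List.tail (rows 62 1 (start 62))) 1 0

end Pool.Agent.H17.FK
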