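import Pool.Agent.H37.UM.Stmts
import Pool.Agent.H17.UM.FKC

/-!
# FK: soundness of the packed arithmetic
-/

set_option autoImplicit false
set_option linter.unusedSectionVars false

namespace Pool.Agent.H17.FK

open Pool.Agent.H37.UM PowerSeries Finset

variable {B K : ℕ} (hB : B = 560) (hK : K = 1275)

/-- `x` represents `f` -/
def Rep (B K x : ℕ) (f : ℤ⟦X⟧) : Prop := x < 2 ^ (B * K) ∧ (x : ZMod (2 ^ (B * K))) = pk B K f

theorem MoE_eq (e : ℕ) : MoE e = 2 ^ e := rfl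

theorem redE_eq (e x : ℕ) : redE e x = x % 2 ^ e := Nat.and_two_pow_sub_one_eq_mod x e

include hB hK

theorem hBK : B * K = 714000 := by rw [hB, hK]

theorem Mo_eq : Mo = 2 ^ (B * K) := by
  unfold Mo
  rw [← hBK hB hK]
  exact MoE_eq _

theorem red_eq (x : ℕ) : red x = x % 2 ^ (B * K) := by
  unfold red
  rw [← hBK hB hK]
  exact redE_eq _ _

theorem red_lt (x : ℕ) : red x < 2 ^ (B * K) := by
  rw [red_eq hB hK]
  exact Nat.mod_lt _ (Nat.pow_pos (by norm_num))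

theorem cast_red (x : ℕ) : ((red x : ℕ) : ZMod (2 ^ (B * K))) = (x : ZMod (2 ^ (B * K))) := by
  rw [red_eq hB hK]
  exact ZMod.natCast_mod x _

theorem rep_red {x : ℕ} {f : ℤ⟦X⟧} (h : (x : ZMod (2 ^ (B * K))) = pk B K f) :
    Rep B K (red x) f :=
  ⟨red_lt hB hK x, by rw [cast_red hB hK, h]⟩

theorem cast_adds (x s : ℕ) : ((adds x s : ℕ) : ZMod (2 ^ (B * K))) =
    (1 + 2 ^ s) * (x : ZMod (2 ^ (B * K))) := by
  unfold adds
  rw [cast_red hB hK]
  change (((x + x <<< s : ℕ)) : ZMod (2 ^ (B * K))) = _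
  rw [Nat.shiftLeft_eq]
  push_cast
  ring

theorem cast_subs (x s : ℕ) : ((subs x s : ℕ) : ZMod (2 ^ (B * K))) =
    (1 - 2 ^ s) * (x : ZMod (2 ^ (B * K))) := by
  unfold subs
  rw [cast_red hB hK]
  change (((x + (Mo - red (x <<< s)) : ℕ)) : ZMod (2 ^ (B * K))) = _
  have h1 : red (x <<< s) ≤ Mo := by
    rw [Mo_eq hB hK]; exact (red_lt hB hK _).le
  rw [Nat.cast_add, Nat.cast_sub h1, cast_red hB hK, Nat.shiftLeft_eq, Mo_eq hB hK]
  have h2 : (((2 ^ (B * K) : ℕ)) : ZMod (2 ^ (B * K))) = 0 := ZMod.natCast_self _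
  rw [h2]
  push_cast
  ring

theorem adds_lt (x s : ℕ) : adds x s < 2 ^ (B * K) := red_lt hB hK _

theorem subs_lt (x s : ℕ) : subs x s < 2 ^ (B * K) := red_lt hB hK _

omit hB hK in
theorem w_even {i : ℕ} (h : i % 2 = 0) : w i = 1 + X ^ i := by
  unfold w
  rw [Even.neg_pow (Nat.even_iff.2 h)]

omit hB hK in
theorem w_odd {i : ℕ} (h : i % 2 ≠ 0) : w i = 1 - X ^ i := by
  unfold w
  rw [Odd.neg_pow (Nat.odd_iff.2 (by omega))]
  ring

variable (hP : PACKStmt)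

include hP

theorem pk_mul (f g : ℤ⟦X⟧) : pk B K (f * g) = pk B K f * pk B K g := hP.1 _ _ _ _

theorem pk_add (f g : ℤ⟦X⟧) : pk B K (f + g) = pk B K f + pk B K g :=
  hP.2.1 _ _ _ _

theorem pk_neg (f : ℤ⟦X⟧) : pk B K (-f) = -pk B K f := hP.2.2.1 _ _ _

theorem pk_sub (f g : ℤ⟦X⟧) : pk B K (f - g) = pk B K f - pk B K g := by
  rw [sub_eq_add_neg, pk_add hB hK hP, pk_neg hB hK hP, ← sub_eq_add_neg]

theorem pk_one : pk B K 1 = 1 := hP.2.2.2.1 _ _ (by omega)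

theorem pk_X (i : ℕ) : pk B K (X ^ i) = 2 ^ (B * i) := by
  rw [hP.2.2.2.2.1, ← pow_mul]

omit hK hP in
theorem mulB (i : ℕ) : Nat.mul 560 i = B * i := by rw [hB]; rfl

theorem pk_nat (n : ℕ) : pk B K (n : ℤ⟦X⟧) = n := by
  induction n with
  | zero =>
    have h := pk_add hB hK hP 0 0
    simpa using h
  | succ n ih =>
    push_cast
    rw [pk_add hB hK hP, ih, pk_one hB hK hP]

theorem rep_adds {x : ℕ} {f : ℤ⟦X⟧} (i : ℕ) (h : Rep B K x f) :
    Rep B K (adds x (Nat.mul 560 i)) ((1 + X ^ i) * f) := by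
  refine ⟨adds_lt hB hK _ _, ?_⟩
  rw [cast_adds hB hK, h.2, pk_mul hB hK hP, pk_add hB hK hP, pk_one hB hK hP, pk_X hB hK hP,
    mulB hB]

theorem rep_subs {x : ℕ} {f : ℤ⟦X⟧} (i : ℕ) (h : Rep B K x f) :
    Rep B K (subs x (Nat.mul 560 i)) ((1 - X ^ i) * f) := by
  refine ⟨subs_lt hB hK _ _, ?_⟩
  rw [cast_subs hB hK, h.2, pk_mul hB hK hP, pk_sub hB hK hP, pk_one hB hK hP, pk_X hB hK hP,
    mulB hB]

theorem cast_wm (i x : ℕ) : ((wm i x : ℕ) : ZMod (2 ^ (B * K))) = pk B K (w i) * (x : ZMod (2 ^ (B * K))) := by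
  unfold wm
  by_cases h : i % 2 = 0
  · have h1 : Nat.beq (Nat.mod i 2) 0 = true := by rw [Nat.beq_eq]; exact h
    rw [h1, w_even h, pk_add hB hK hP, pk_one hB hK hP, pk_X hB hK hP]
    have h2 := cast_adds hB hK x (Nat.mul 560 i)
    rw [mulB hB] at h2
    exact (congrArg (fun z : ℕ => (z : ZMod (2 ^ (B * K)))) (by rw [mulB hB]; rfl)).trans h2
  · have h1 : Nat.beq (Nat.mod i 2) 0 = false := by
      rw [← Bool.not_eq_true, Nat.beq_eq]; exact h
    rw [h1, w_odd h, pk_sub hB hK hP, pk_one hB hK hP, pk_X hB hK hP]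
    have h2 := cast_subs hB hK x (Nat.mul 560 i)
    rw [mulB hB] at h2
    exact (congrArg (fun z : ℕ => (z : ZMod (2 ^ (B * K)))) (by rw [mulB hB]; rfl)).trans h2

theorem rep_mul {x y : ℕ} {f g : ℤ⟦X⟧} (hx : Rep B K x f) (hy : Rep B K y g) :
    Rep B K (red (Nat.mul x y)) (f * g) := by
  refine rep_red hB hK ?_
  rw [pk_mul hB hK hP, ← hx.2, ← hy.2]
  exact Nat.cast_mul x y

theorem rep_one : Rep B K 1 1 := by
  refine ⟨Nat.one_lt_two_pow (by rw [hBK hB hK]; omega), ?_⟩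
  rw [pk_one hB hK hP, Nat.cast_one]

theorem rep_zero : Rep B K 0 0 := by
  refine ⟨Nat.pow_pos (by norm_num), ?_⟩
  have h := pk_nat hB hK hP 0
  simpa using h.symm

theorem w_mul_g {i : ℕ} (hi : 1 ≤ i) : w i * g i = 1 := by
  unfold g
  refine PowerSeries.mul_invOfUnit _ _ ?_
  unfold w
  have h : (0 : ℤ) ^ i = 0 := zero_pow (by omega)
  simp [h]

theorem gi_rep {i : ℕ} (hi : 1 ≤ i) (h : wm i (gi i) = 1) : Rep B K (gi i) (g i) := by
  refine ⟨?_, ?_⟩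
  · unfold gi
    cases Nat.beq (Nat.mod i 2) 0
    · exact red_lt hB hK _
    · exact subs_lt hB hK _ _
  · have h1 := cast_wm hB hK hP i (gi i)
    rw [h, Nat.cast_one] at h1
    have h2 : pk B K (w i) * pk B K (g i) = 1 := by
      rw [← pk_mul hB hK hP, w_mul_g hB hK hP hi, pk_one hB hK hP]
    calc ((gi i : ℕ) : ZMod (2 ^ (B * K))) = (pk B K (w i) * pk B K (g i)) * (gi i : ZMod (2 ^ (B * K))) := by
          rw [h2, one_mul]
      _ = pk B K (g i) * (pk B K (w i) * (gi i : ZMod (2 ^ (B * K)))) := by ring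
      _ = pk B K (g i) := by rw [← h1, mul_one]

omit hB hK hP in
theorem force_eq {α : Type} (n : ℕ) (k : ℕ → α) : force n k = k n := by
  cases n <;> rfl

theorem chkG_spec : ∀ n, chkG n = true → ∀ i, 1 ≤ i → i ≤ n → Rep B K (gi i) (g i)
  | 0, _, i, h1, h2 => by omega
  | n + 1, h, i, h1, h2 => by
    unfold chkG at h
    rw [Bool.and_eq_true, Nat.beq_eq] at h
    rcases Nat.lt_or_ge i (n + 1) with h3 | h3
    · exact chkG_spec n h.2 i h1 (by omega)
    · have h4 : i = n + 1 := by omega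
      rw [h4]
      exact gi_rep hB hK hP (by omega) h.1

end Pool.Agent.H17.FK
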