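import Pool.Agent.H17.UM.FKA

/-!
# FK: soundness of the rows and of the products
-/

set_option autoImplicit false
set_option linter.unusedSectionVars false

namespace Pool.Agent.H17.FK

open Pool.Agent.H37.UM PowerSeries Finset

theorem nth_ge : ∀ (l : List ℕ) (n : ℕ), l.length ≤ n → nth l n = 0
  | [], _, _ => rfl
  | x :: l, 0, h => by simp at h
  | x :: l, n + 1, h => nth_ge l n (by simpa using h)

theorem nth_replicate : ∀ (k n : ℕ), nth (List.replicate k 0) n = 0
  | 0, _ => rfl
  | k + 1, 0 => rfl
  | k + 1, n + 1 => nth_replicate k n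

theorem nth_tail : ∀ (l : List ℕ) (n : ℕ), nth (List.tail l) n = nth l (n + 1)
  | [], _ => rfl
  | _ :: _, _ => rfl

variable {B K : ℕ} (hB : B = 560) (hK : K = 1275) (hP : PACKStmt) (hG : GENStmt)

include hB hK hP

theorem rep_add' {x y : ℕ} {f f' : ℤ⟦X⟧} (hx : (x : ZMod (2 ^ (B * K))) = pk B K f)
    (hy : (y : ZMod (2 ^ (B * K))) = pk B K f') : Rep B K (red (Nat.add x y)) (f + f') := by
  refine rep_red hB hK ?_
  rw [pk_add hB hK hP, ← hx, ← hy]
  exact Nat.cast_add x y

theorem row_spec (i G : ℕ) (hi : 1 ≤ i) (hg : Rep B K G (g i)) (hG : GENStmt) :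
    ∀ (os acc : List ℕ),
      (∀ t, t < os.length → Rep B K (nth os t) (hr 1 (i - 1) (acc.length + t))) →
      (∀ t, t < acc.length → Rep B K (nth acc t) (hr 1 i (acc.length - 1 - t))) →
      (row i G os acc).length = os.length ∧
        ∀ t, t < os.length → Rep B K (nth (row i G os acc) t) (hr 1 i (acc.length + t))
  | [], acc, _, _ => ⟨rfl, fun t ht => absurd ht (by simp)⟩
  | o :: os, acc, ho, ha => by
    unfold row
    rw [force_eq]
    obtain ⟨v, hv⟩ : ∃ v, v = red (Nat.add o (Nat.mul G (nth acc (Nat.pred i)))) := ⟨_, rfl⟩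
    rw [← hv]
    have hrec : hr 1 i acc.length = hr 1 (i - 1) acc.length +
        if i ≤ acc.length then g i * hr 1 i (acc.length - i) else 0 := by
      have h := hG.2.2.1 1 (i - 1) acc.length le_rfl (by omega)
      have h1 : i - 1 + 1 = i := by omega
      rw [h1] at h
      exact h
    have hvr : Rep B K v (hr 1 i acc.length) := by
      rw [hv, hrec]
      have ho0 := ho 0 (by simp)
      refine rep_add' hB hK hP ho0.2 ?_
      by_cases h : i ≤ acc.length
      · rw [if_pos h, pk_mul hB hK hP, ← hg.2]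
        have h1 := (ha (i - 1) (by omega)).2
        rw [show acc.length - 1 - (i - 1) = acc.length - i by omega] at h1
        rw [← h1]
        exact Nat.cast_mul _ _
      · rw [if_neg h]
        have h1 : nth acc (Nat.pred i) = 0 := nth_ge _ _ (by
          rw [Nat.pred_eq_sub_one]; omega)
        rw [h1]
        exact (rep_zero hB hK hP).2
    have ih := row_spec i G hi hg hG os (v :: acc)
      (fun t ht => by
        have h := ho (t + 1) (by simpa using ht)
        rw [List.length_cons]
        rw [show acc.length + 1 + t = acc.length + (t + 1) by omega]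
        exact h)
      (fun t ht => by
        rw [List.length_cons] at ht ⊢
        cases t with
        | zero => exact hvr
        | succ t =>
          have h := ha t (by omega)
          rw [show acc.length + 1 - 1 - (t + 1) = acc.length - 1 - t by omega]
          exact h)
    refine ⟨by rw [List.length_cons, List.length_cons, ih.1], fun t ht => ?_⟩
    cases t with
    | zero => exact hvr
    | succ t =>
      have h := ih.2 t (by simpa using ht)
      rw [List.length_cons, show acc.length + 1 + t = acc.length + (t + 1) by omega] at h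
      exact h

theorem rows_spec (hG : GENStmt) (hg : ∀ i, 1 ≤ i → i ≤ 62 → Rep B K (gi i) (g i)) :
    ∀ (f i : ℕ) (l : List ℕ), 1 ≤ i → i + f ≤ 63 → l.length = 63 →
      (∀ t, t < 63 → Rep B K (nth l t) (hr 1 (i - 1) t)) →
      (rows f i l).length = 63 ∧
        ∀ t, t < 63 → Rep B K (nth (rows f i l) t) (hr 1 (i - 1 + f) t)
  | 0, i, l, _, _, h1, h2 => ⟨h1, h2⟩
  | f + 1, i, l, hi, hif, h1, h2 => by
    unfold rows
    have h3 := row_spec hB hK hP i (gi i) hi (hg i hi (by omega)) hG l []
      (fun t ht => by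
        rw [List.length_nil, Nat.zero_add]
        exact h2 t (by omega))
      (fun t ht => absurd ht (by simp))
    have h4 := rows_spec hG hg f (i + 1) (row i (gi i) l []) (by omega) (by omega)
      (by rw [h3.1, h1])
      (fun t ht => by
        have h5 := h3.2 t (by omega)
        rw [List.length_nil, Nat.zero_add] at h5
        rw [Nat.add_sub_cancel]
        exact h5)
    rw [show i - 1 + (f + 1) = i + 1 - 1 + f by omega]
    exact h4

theorem start_spec (hG : GENStmt) :
    (start 62).length = 63 ∧ ∀ t, t < 63 → Rep B K (nth (start 62) t) (hr 1 0 t) := by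
  refine ⟨by simp [start], fun t _ => ?_⟩
  cases t with
  | zero =>
    rw [hG.1]
    exact rep_one hB hK hP
  | succ t =>
    rw [hG.2.1 1 0 (t + 1) (by norm_num) (by omega)]
    have h : nth (start 62) (t + 1) = 0 := nth_replicate 62 t
    rw [h]
    exact rep_zero hB hK hP

omit hB hK hP in
theorem F_two (hO : OPStmt) {m : ℕ} (hm : 1 ≤ m) : F (2 * m) = F m * (1 + X ^ (2 * m)) := by
  have h1 : padicValNat 2 (2 * m) = padicValNat 2 m + 1 := by
    rw [padicValNat.mul (by norm_num) (by omega), padicValNat.self (by norm_num)]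
    omega
  unfold F
  rw [h1, hO.2.1 m hm, Finset.prod_range_succ]
  have h2 : 2 ^ (padicValNat 2 m + 1) * op m = 2 * m := by
    have h3 := (hO.1 m hm).2.2.2
    rw [pow_succ, mul_comm (2 ^ _) 2, mul_assoc, ← h3]
  rw [h2]
  ring

omit hB hK hP in
theorem F_odd (hO : OPStmt) {m : ℕ} (hm : m % 2 ≠ 0) : F m * w 1 = 1 - X ^ m := by
  have h1 : padicValNat 2 m = 0 := padicValNat.eq_zero_of_not_dvd (by omega)
  have h2 : op m = m := by
    have h3 := hO.2.2 (m / 2)
    rw [show 2 * (m / 2) + 1 = m by omega] at h3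
    exact h3
  unfold F
  rw [h1, h2, Finset.prod_range_zero, mul_one, w_odd (by norm_num), pow_one]
  unfold iv
  exact geom_sum_mul_neg X m

theorem dstep_spec (hO : OPStmt) : ∀ (f m x : ℕ) (φ : ℤ⟦X⟧), 1 ≤ m → m < 2 ^ f → Rep B K x φ →
    Rep B K (dstep f m x) (F m * w 1 * φ)
  | 0, m, x, φ, h1, h2, _ => by omega
  | f + 1, m, x, φ, h1, h2, hx => by
    unfold dstep
    by_cases h : m % 2 = 0
    · have h3 : Nat.beq (Nat.mod m 2) 0 = true := by rw [Nat.beq_eq]; exact h
      rw [h3]
      have h4 := dstep_spec hO f (m / 2) (adds x (Nat.mul 560 m)) ((1 + X ^ m) * φ) (by omega)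
        (by rw [pow_succ] at h2; omega) (rep_adds hB hK hP m hx)
      have h5 := F_two hO (m := m / 2) (by omega)
      rw [show 2 * (m / 2) = m by omega] at h5
      rw [h5]
      have h6 : F (m / 2) * (1 + X ^ m) * w 1 * φ = F (m / 2) * w 1 * ((1 + X ^ m) * φ) := by ring
      rw [h6]
      exact h4
    · have h3 : Nat.beq (Nat.mod m 2) 0 = false := by
        rw [← Bool.not_eq_true, Nat.beq_eq]; exact h
      rw [h3, F_odd hO h]
      exact rep_subs hB hK hP m hx

omit hB hK hP in
theorem opn_spec (hO : OPStmt) : ∀ (f m : ℕ), 1 ≤ m → m < 2 ^ f → opn f m = op m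
  | 0, m, h1, h2 => by omega
  | f + 1, m, h1, h2 => by
    unfold opn
    by_cases h : m % 2 = 0
    · have h3 : Nat.beq (Nat.mod m 2) 0 = true := by rw [Nat.beq_eq]; exact h
      rw [h3]
      have h4 := opn_spec hO f (m / 2) (by omega) (by rw [pow_succ] at h2; omega)
      have h5 := hO.2.1 (m / 2) (by omega)
      rw [show 2 * (m / 2) = m by omega] at h5
      rw [h5]
      exact h4
    · have h3 : Nat.beq (Nat.mod m 2) 0 = false := by
        rw [← Bool.not_eq_true, Nat.beq_eq]; exact h
      rw [h3]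
      have h4 := hO.2.2 (m / 2)
      rw [show 2 * (m / 2) + 1 = m by omega] at h4
      exact h4.symm

omit hB hK hP in
theorem Ioc_pred {n : ℕ} (hn : 1 ≤ n) : Finset.Ioc (n - 1) n = {n} := by
  ext a
  simp only [Finset.mem_Ioc, Finset.mem_singleton]
  omega

omit hB hK hP in
theorem U_pred {n : ℕ} (hn : 1 ≤ n) : U (n - 1) n = F n := by
  unfold U
  rw [Ioc_pred hn, Finset.prod_singleton]

omit hB hK hP in
theorem den_rec (hR : RECStmt) {n : ℕ} (hn : 1 ≤ n) : den n = F n * w 1 * den (n - 1) := by
  have h := hR.2.2 (n - 1) n (by omega)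
  rw [U_pred hn, show n - (n - 1) = 1 by omega, pow_one] at h
  have h1 : w 1 * g 1 = 1 := by
    unfold g
    refine PowerSeries.mul_invOfUnit _ _ ?_
    unfold w
    simp
  calc den n = den n * (w 1 * g 1) := by rw [h1, mul_one]
    _ = (den n * g 1) * w 1 := by ring
    _ = F n * den (n - 1) * w 1 := by rw [h]
    _ = _ := by ring

omit hB hK hP in
theorem T_rec (hU : UUStmt) {n : ℕ} (hn : 1 ≤ n) : T n = F n * T (n - 1) := by
  have h := hU.2.2.2.2.1 0 (n - 1) n (by omega) (by omega)
  rw [U_pred hn] at h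
  exact h.symm

omit hB hK hP in
theorem dg_rec (hU : UUStmt) {n : ℕ} (hn : 1 ≤ n) : dg n = dg (n - 1) + (2 * n - op n - 1) := by
  have h := hU.2.2.2.2.2.1 0 (n - 1) n (by omega) (by omega)
  have h1 : dU (n - 1) n = 2 * n - op n - 1 := by
    unfold dU
    rw [Ioc_pred hn, Finset.sum_singleton]
  rw [h1] at h
  unfold dg
  omega

end Pool.Agent.H17.FK
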