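import Pool.Agent.H17.UM.FKB

/-!
# FK: bounds of the coefficients
-/

set_option autoImplicit false
set_option linter.unusedSectionVars false
set_option exponentiation.threshold 1000

namespace Pool.Agent.H17.FK

open Pool.Agent.H37.UM PowerSeries Finset

/-- a bound for `cc n i`, `n ≤ 62` -/
def cb (i : ℕ) : ℕ := if 32 ≤ i then 1 else if 16 ≤ i then 2 else if 8 ≤ i then 3 else
  if 4 ≤ i then 4 else if 2 ≤ i then 5 else 6

theorem cc_le {n i : ℕ} (hn : n ≤ 62) (hi : 1 ≤ i) : cc n i ≤ cb i := by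
  unfold cc
  by_cases h : i = 0 ∨ n < i
  · rw [if_pos h]; exact Nat.zero_le _
  · rw [if_neg h]
    have h0 : n / i ≠ 0 := by
      have : i ≤ n := by omega
      exact (Nat.div_pos this (by omega)).ne'
    have key : ∀ e c, c ≤ i → 62 < c * 2 ^ e → Nat.log 2 (n / i) < e := by
      intro e c hc h1
      rw [Nat.log_lt_iff_lt_pow (by norm_num) h0]
      rw [Nat.div_lt_iff_lt_mul (by omega)]
      have h2 : c * 2 ^ e ≤ i * 2 ^ e := Nat.mul_le_mul_right _ hc
      rw [mul_comm]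
      omega
    unfold cb
    split_ifs with h1 h2 h3 h4 h5
    · have := key 1 32 h1 (by norm_num); omega
    · have := key 2 16 h2 (by norm_num); omega
    · have := key 3 8 h3 (by norm_num); omega
    · have := key 4 4 h4 (by norm_num); omega
    · have := key 5 2 h5 (by norm_num); omega
    · have := key 6 1 hi (by norm_num); omega

theorem sum_cc {n k : ℕ} (hn : n ≤ 62) : ∑ i ∈ Icc 1 (min n k), cc n i ≤ 119 := by
  calc ∑ i ∈ Icc 1 (min n k), cc n i ≤ ∑ i ∈ Icc 1 (min n k), cb i :=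
        Finset.sum_le_sum (fun i hi => cc_le hn (Finset.mem_Icc.1 hi).1)
    _ ≤ ∑ i ∈ Icc 1 62, cb i := Finset.sum_le_sum_of_subset (by
        intro i hi
        rw [Finset.mem_Icc] at hi ⊢
        omega)
    _ = 119 := by decide

theorem card_part (n : ℕ) : Fintype.card n.Partition ≤ 2 ^ (n - 1) := by
  rw [← composition_card]
  exact Fintype.card_le_of_surjective _ Nat.Partition.ofComposition_surj

theorem choose_bd {n k : ℕ} (h1 : 1 ≤ n) (hn : n ≤ 62) (hk : k < 1275) :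
    (n + k - 1).choose k ≤ 2 ^ 356 := by
  calc (n + k - 1).choose k ≤ (61 + k).choose k := Nat.choose_le_choose k (by omega)
    _ = (61 + k).choose 61 := by rw [Nat.choose_symm_add]
    _ ≤ (1335).choose 61 := Nat.choose_le_choose 61 (by omega)
    _ = (1335).descFactorial 61 / Nat.factorial 61 :=
        Nat.choose_eq_descFactorial_div_factorial _ _
    _ ≤ 1335 ^ 61 / Nat.factorial 61 := Nat.div_le_div_right (Nat.descFactorial_le_pow _ _)
    _ ≤ 2 ^ 356 := by
        have h : (1335 : ℕ) ^ 61 ≤ 2 ^ 356 * Nat.factorial 61 := by decide +kernel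
        exact Nat.div_le_of_le_mul (by rw [mul_comm]; exact h)

theorem P_bd (hA : APBStmt) {n k : ℕ} (h1 : 1 ≤ n) (hn : n ≤ 62) (hk : k < 1275) :
    |coeff k (P n)| ≤ 2 ^ 536 := by
  refine (hA n k h1).trans ?_
  have h : 2 ^ (∑ i ∈ Icc 1 (min n k), cc n i) * Fintype.card n.Partition * (n + k - 1).choose k ≤
      2 ^ 119 * 2 ^ 61 * 2 ^ 356 := by
    refine Nat.mul_le_mul (Nat.mul_le_mul (Nat.pow_le_pow_right (by norm_num) (sum_cc hn)) ?_)
      (choose_bd h1 hn hk)
    exact (card_part n).trans (Nat.pow_le_pow_right (by norm_num) (by omega))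
  have h2 : (2 : ℕ) ^ 119 * 2 ^ 61 * 2 ^ 356 = 2 ^ 536 := by
    rw [← pow_add, ← pow_add]
  rw [h2] at h
  exact_mod_cast h

theorem T_le (hF : FFStmt) (hU : UUStmt) : ∀ (n k : ℕ), coeff k (T n) ≤ ((2 ^ n * n.factorial : ℕ) : ℤ)
  | 0, k => by
    unfold T U
    rw [Finset.Ioc_self, Finset.prod_empty, coeff_one]
    split_ifs <;> simp
  | n + 1, k => by
    have ih := T_le hF hU n
    rw [T_rec hU (by omega), coeff_mul, Finset.Nat.sum_antidiagonal_eq_sum_range_succ_mk]
    rw [Nat.add_sub_cancel]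
    obtain ⟨C, hC⟩ : ∃ C : ℕ, C = 2 ^ n * n.factorial := ⟨_, rfl⟩
    have h1 : ∀ i ∈ Finset.range (k + 1), coeff i (F (n + 1)) * coeff (k - i) (T n) ≤
        if i < 2 * (n + 1) then (C : ℤ) else 0 := by
      intro i _
      rw [hF.1 (n + 1) (by omega) i]
      have h2 : 0 ≤ coeff (k - i) (T n) := hU.2.1 0 n (k - i)
      have h3 := ih (k - i)
      rw [← hC] at h3
      split_ifs with h4 h5 h5
      · rw [one_mul]; exact h3
      · exact absurd h4.1 h5
      · rw [zero_mul]; exact Int.natCast_nonneg _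
      · rw [zero_mul]
    refine (Finset.sum_le_sum h1).trans ?_
    rw [← Finset.sum_filter, Finset.sum_const, nsmul_eq_mul]
    have h2 : ((Finset.range (k + 1)).filter (fun i => i < 2 * (n + 1))).card ≤ 2 * (n + 1) := by
      calc _ ≤ (Finset.range (2 * (n + 1))).card := Finset.card_le_card (by
            intro i hi
            rw [Finset.mem_filter] at hi
            exact Finset.mem_range.2 hi.2)
        _ = _ := Finset.card_range _
    have h3 : (2 ^ (n + 1) * (n + 1).factorial : ℕ) = 2 * (n + 1) * C := by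
      rw [hC, Nat.factorial_succ, pow_succ]; ring
    rw [h3]
    push_cast
    have h4 : (((Finset.range (k + 1)).filter (fun i => i < 2 * (n + 1))).card : ℤ) ≤
        2 * (n + 1) := by exact_mod_cast h2
    exact mul_le_mul_of_nonneg_right h4 (Int.natCast_nonneg _)

theorem T_bd (hF : FFStmt) (hU : UUStmt) {n : ℕ} (hn : n ≤ 62) (k : ℕ) :
    0 ≤ coeff k (T n) ∧ coeff k (T n) ≤ 2 ^ 536 := by
  refine ⟨hU.2.1 0 n k, (T_le hF hU n k).trans ?_⟩
  have h1 : (2 : ℕ) ^ n * n.factorial ≤ 2 ^ 62 * Nat.factorial 62 :=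
    Nat.mul_le_mul (Nat.pow_le_pow_right (by norm_num) hn) (Nat.factorial_le hn)
  have h2 : (2 : ℕ) ^ 62 * Nat.factorial 62 ≤ 2 ^ 536 := by decide +kernel
  exact_mod_cast h1.trans h2

theorem coeff_one_sub (s k : ℕ) (f : ℤ⟦X⟧) :
    coeff k ((1 - X ^ s) * f) = coeff k f - if s ≤ k then coeff (k - s) f else 0 := by
  rw [sub_mul, one_mul, map_sub, coeff_X_pow_mul']

theorem abs_sub_le' {a b A : ℤ} (ha : |a| ≤ A) (hb : |b| ≤ A) : |a - b| ≤ 2 * A := by
  rw [abs_le] at *
  constructor <;> linarith [ha.1, ha.2, hb.1, hb.2]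

/-- the first series to be checked -/
theorem f1_bd (hA : APBStmt) {n k : ℕ} (h1 : 1 ≤ n) (hn : n ≤ 62) (hk : k < 1275) :
    |coeff k ((1 - X ^ 2) * P n)| < 2 ^ 559 := by
  rw [coeff_one_sub]
  have h2 : |if 2 ≤ k then coeff (k - 2) (P n) else 0| ≤ 2 ^ 536 := by
    split_ifs
    · exact P_bd hA h1 hn (by omega)
    · rw [abs_zero]; positivity
  refine (abs_sub_le' (P_bd hA h1 hn hk) h2).trans_lt ?_
  norm_num

theorem coeff_XX (n k : ℕ) : coeff k (XX n) = 2 * n * coeff k (P n) - (n + 2) * coeff k (T n) := by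
  unfold XX
  have h1 : (2 * n : ℤ⟦X⟧) = C (2 * n : ℤ) := by simp
  have h2 : (n + 2 : ℤ⟦X⟧) = C (n + 2 : ℤ) := by simp
  rw [h1, h2, map_sub, coeff_C_mul, coeff_C_mul]

theorem f2_bd (hA : APBStmt) (hF : FFStmt) (hU : UUStmt) {n k : ℕ} (h1 : 1 ≤ n) (hn : n ≤ 62)
    (hk : k < 1275) : |coeff k ((1 - X ^ 1) * XX n)| < 2 ^ 559 := by
  have key : ∀ k, k < 1275 → |coeff k (XX n)| ≤ 2 ^ 546 := by
    intro k hk
    rw [coeff_XX]
    have h2 := P_bd hA h1 hn hk
    have h3 := T_bd hF hU hn k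
    have h4 : (n : ℤ) ≤ 62 := by exact_mod_cast hn
    have h5 : (1 : ℤ) ≤ n := by exact_mod_cast h1
    rw [abs_le] at h2 ⊢
    obtain ⟨E, hE⟩ : ∃ E : ℤ, E = 2 ^ 536 := ⟨_, rfl⟩
    have hE0 : 0 ≤ E := by rw [hE]; positivity
    rw [← hE] at h2 h3
    have h6 : (2 : ℤ) ^ 546 = 1024 * E := by rw [hE]; norm_num
    rw [h6]
    constructor
    · nlinarith [h2.1, h2.2, h3.1, h3.2, mul_le_mul_of_nonneg_left h4 hE0,
        mul_nonneg (show (0 : ℤ) ≤ n by linarith) (show (0 : ℤ) ≤ coeff k (P n) + E by linarith [h2.1]),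
        mul_nonneg (show (0 : ℤ) ≤ n by linarith) (show (0 : ℤ) ≤ E - coeff k (T n) by linarith [h3.2])]
    · nlinarith [h2.1, h2.2, h3.1, h3.2, mul_le_mul_of_nonneg_left h4 hE0,
        mul_nonneg (show (0 : ℤ) ≤ n by linarith) (show (0 : ℤ) ≤ E - coeff k (P n) by linarith [h2.2]),
        mul_nonneg (show (0 : ℤ) ≤ n by linarith) h3.1]
  rw [coeff_one_sub]
  have h2 : |if 1 ≤ k then coeff (k - 1) (XX n) else 0| ≤ 2 ^ 546 := by
    split_ifs
    · exact key _ (by omega)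
    · rw [abs_zero]; positivity
  refine (abs_sub_le' (key k hk) h2).trans_lt ?_
  norm_num

end Pool.Agent.H17.FK
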